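import Pool.Agent.Work.MP_b8a914_gt.C.Defs

set_option autoImplicit false

open Cardinal

namespace Pool.Agent.B8a914

/-- A groupwise dense ideal on `ℕ`: closed under almost subsets and under unions of two members,
and containing, for each increasing sequence `p`, a union of infinitely many of its intervals. -/
def GwIdeal (I : Set (Set ℕ)) : Prop :=
  (∀ A ∈ I, ∀ B : Set ℕ, (B \ A).Finite → B ∈ I) ∧ (∀ A ∈ I, ∀ B ∈ I, A ∪ B ∈ I) ∧
    ∀ p : ℕ → ℕ, StrictMono p →
      ∃ J : Set ℕ, J.Infinite ∧ (⋃ j ∈ J, Set.Ico (p j) (p (j + 1))) ∈ I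

/-- The groupwise density number for filters: least size of a family of groupwise dense ideals
with no common infinite member. -/
noncomputable def filterGroupwiseDensity : Cardinal.{0} :=
  sInf {c | ∃ G : Set (Set (Set ℕ)), (∀ I ∈ G, GwIdeal I) ∧
    (∀ Z : Set ℕ, Z.Infinite → ∃ I ∈ G, Z ∉ I) ∧ #G = c}

/-- The filter dichotomy: each proper filter on `ℕ` containing the cofinite sets is mapped by
some finite-to-one function to the cofinite filter or to an ultrafilter. -/
def FilterDichotomy : Prop :=
  ∀ F : Filter ℕ, F.NeBot → F ≤ Filter.cofinite → ∃ f : ℕ → ℕ, (∀ n, (f ⁻¹' {n}).Finite) ∧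
    (Filter.map f F = Filter.cofinite ∨ ∃ U : Ultrafilter ℕ, Filter.map f F = U)

end Pool.Agent.B8a914
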