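import Pool.Agent.Work.MP_b8a914_gt.C.A
import Pool.Agent.Work.MP_b8a914_gt.G.Defs

set_option autoImplicit false

open Cardinal Set Filter Topology

namespace Pool.Agent.B8a914

section
variable {X : Type}

structure Gauge [TopologicalSpace X] (O : ℕ → ℕ → X → Prop) : Prop where
  op : ∀ a b, IsOpen {x | O a b x}
  le : ∀ a b x, O a b x → a ≤ b
  mono : ∀ a b b' x, O a b x → b ≤ b' → O a b' x
  tot : ∀ a x, ∃ b, O a b x

def Ch (O : ℕ → ℕ → X → Prop) (p : ℕ → ℕ) (x : X) : ℕ → ℕ → ℕ → Prop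
  | 0, i, j => i ≤ j
  | m + 1, i, j => ∃ j', O (p i) (p j') x ∧ Ch O p x m j' j

def Der (O : ℕ → ℕ → X → Prop) (p φ : ℕ → ℕ) (a b : ℕ) (x : X) : Prop :=
  ∃ i j, a ≤ i ∧ j ≤ φ i ∧ Ch O p x (i + 1) i j ∧ p j ≤ b

def GaL (O : ℕ → ℕ → X → Prop) : List ((ℕ → ℕ) × (ℕ → ℕ)) → ℕ → ℕ → X → Prop
  | [] => O
  | q :: L => Der (GaL O L) q.1 q.2

def Thin (φ : ℕ → ℕ) (E : Set ℕ) : Prop := ∃ k, ∀ i, (E ∩ Icc i (φ i)).ncard ≤ k

def idx (p : ℕ → ℕ) (Z : Set ℕ) : Set ℕ := {j | ∃ t ∈ Z, p j ≤ t ∧ t < p (j + 1)}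

def Miss (a b : ℕ) (Z : Set ℕ) : Prop := ∀ t ∈ Z, a ≤ t → b ≤ t

def Cover (O G : ℕ → ℕ → X → Prop) (Z : Set ℕ) : Prop :=
  ∃ k, ∀ a b x, k ≤ a → G a b x → ∃ a' b', a ≤ a' ∧ b' ≤ b ∧ O a' b' x ∧ Miss a' b' Z

theorem Cover.refl (O : ℕ → ℕ → X → Prop) : Cover O O ∅ :=
  ⟨0, fun a b _ _ h => ⟨a, b, le_rfl, le_rfl, h, fun _ ht => absurd ht (notMem_empty _)⟩⟩

theorem Cover.trans {O G H : ℕ → ℕ → X → Prop} {Z Z' : Set ℕ} (h : Cover O G Z)
    (h' : Cover G H Z') : Cover O H (Z' ∪ Z) := by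
  obtain ⟨k, hk⟩ := h
  obtain ⟨k', hk'⟩ := h'
  refine ⟨k + k', fun a b x ha hH => ?_⟩
  obtain ⟨a1, b1, h1, h2, h3, h4⟩ := hk' a b x (by omega) hH
  obtain ⟨a2, b2, h5, h6, h7, h8⟩ := hk a1 b1 x (by omega) h3
  refine ⟨a2, b2, h1.trans h5, h6.trans h2, h7, fun t ht hat => ?_⟩
  rcases ht with ht | ht
  · exact h6.trans (h4 t ht (h5.trans hat))
  · exact h8 t ht hat

theorem thin_union {φ : ℕ → ℕ} {E E' : Set ℕ} (h : Thin φ E) (h' : Thin φ E') :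
    Thin φ (E ∪ E') := by
  obtain ⟨k, hk⟩ := h
  obtain ⟨k', hk'⟩ := h'
  refine ⟨k + k', fun i => ?_⟩
  rw [union_inter_distrib_right]
  exact (ncard_union_le _ _).trans (Nat.add_le_add (hk i) (hk' i))

theorem thin_finite (φ : ℕ → ℕ) {E : Set ℕ} (h : E.Finite) : Thin φ E :=
  ⟨E.ncard, fun _ => ncard_le_ncard inter_subset_left h⟩

theorem Thin.mono {φ : ℕ → ℕ} {E E' : Set ℕ} (h : Thin φ E) (hE : E' ⊆ E) : Thin φ E' := by
  obtain ⟨k, hk⟩ := h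
  exact ⟨k, fun i => (ncard_le_ncard (inter_subset_inter_left _ hE)
    ((finite_Icc _ _).inter_of_right _)).trans (hk i)⟩

theorem exists_thin (φ : ℕ → ℕ) {E : Set ℕ} (h : E.Infinite) :
    ∃ E' ⊆ E, E'.Infinite ∧ Thin φ E' := by
  choose nx h1 h2 using h.exists_gt
  let e : ℕ → ℕ := fun n => Nat.rec (nx 0) (fun _ a => nx (hull φ a + a)) n
  have he : ∀ n, e (n + 1) = nx (hull φ (e n) + e n) := fun _ => rfl
  have hm : StrictMono e := strictMono_nat_of_lt_succ fun n => by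
    have := h2 (hull φ (e n) + e n)
    rw [he]; omega
  refine ⟨range e, ?_, infinite_range_of_injective hm.injective, 1, fun i => ?_⟩
  · rintro _ ⟨n, rfl⟩
    cases n with
    | zero => exact h1 0
    | succ n => exact h1 _
  · have key : ∀ n m, n < m → i ≤ e n → e m ≤ φ i → False := by
      intro n m hnm h3 h4
      have h5 := le_hull φ h3
      have h6 := h2 (hull φ (e n) + e n)
      have h7 := hm.monotone (Nat.succ_le_of_lt hnm)
      rw [← he] at h6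
      change e (n + 1) ≤ e m at h7
      omega
    refine (ncard_le_one ((finite_Icc _ _).inter_of_right _)).2 ?_
    rintro _ ⟨⟨n, rfl⟩, hn⟩ _ ⟨⟨m, rfl⟩, hm'⟩
    rcases lt_trichotomy n m with h3 | rfl | h3
    · exact (key n m h3 hn.1 hm'.2).elim
    · rfl
    · exact (key m n h3 hm'.1 hn.2).elim

theorem exists_idx {p : ℕ → ℕ} (hp : StrictMono p) {s t : ℕ} (h1 : p s ≤ t) :
    ∀ s', t < p s' → ∃ j, s ≤ j ∧ j < s' ∧ p j ≤ t ∧ t < p (j + 1) := by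
  intro s'
  induction s' with
  | zero =>
    intro h
    have := hp.monotone (Nat.zero_le s)
    omega
  | succ s' ih =>
    intro h
    by_cases h2 : t < p s'
    · obtain ⟨j, h3, h4, h5⟩ := ih h2
      exact ⟨j, h3, by omega, h5⟩
    · have := hp.lt_iff_lt.1 (h1.trans_lt h)
      exact ⟨s', by omega, by omega, not_lt.1 h2, h⟩

variable [TopologicalSpace X]

theorem PM.io (h : PM X) {R : X → ℕ → ℕ → Prop} (ho : ∀ n k, IsOpen {x | R x n k})
    (ht : ∀ x n, ∃ k, R x n k) : ∃ g : ℕ → ℕ, ∀ x m, ∃ n k, m ≤ n ∧ k ≤ g n ∧ R x n k := by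
  classical
  have h1 : ∀ m, ∃ g : ℕ → ℕ, ∀ x, ∃ n, Nat.find (ht x (n + m)) ≤ g n := fun m =>
    h (fun x n => Nat.find (ht x (n + m))) fun n k => by
      have : {x | Nat.find (ht x (n + m)) ≤ k} = ⋃ j ∈ Iic k, {x | R x (n + m) j} := by
        ext x
        simp only [mem_ofPred_eq, Nat.find_le_iff, mem_iUnion, mem_Iic, exists_prop]
      rw [this]
      exact isOpen_biUnion fun j _ => ho _ _
  choose g hg using h1
  refine ⟨fun n => hull (fun m => g m (n - m)) n, fun x m => ?_⟩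
  obtain ⟨n, hn⟩ := hg m x
  refine ⟨n + m, _, Nat.le_add_left _ _, hn.trans ?_, Nat.find_spec (ht x (n + m))⟩
  have := le_hull (fun m' => g m' (n + m - m')) (Nat.le_add_left m n)
  simpa using this

variable {O : ℕ → ℕ → X → Prop} {p : ℕ → ℕ}

theorem Gauge.ch_le (hO : Gauge O) (hp : StrictMono p) (x : X) :
    ∀ m i j, Ch O p x m i j → i ≤ j := by
  intro m
  induction m with
  | zero => exact fun i j h => h
  | succ m ih =>
    rintro i j ⟨j', h1, h2⟩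
    exact (hp.le_iff_le.1 (hO.le _ _ _ h1)).trans (ih _ _ h2)

theorem Gauge.ch_open (hO : Gauge O) (p : ℕ → ℕ) : ∀ m i j, IsOpen {x | Ch O p x m i j} := by
  intro m
  induction m with
  | zero => exact fun i j => isOpen_const
  | succ m ih =>
    intro i j
    have : {x | Ch O p x (m + 1) i j} = ⋃ j', {x | O (p i) (p j') x} ∩ {x | Ch O p x m j' j} := by
      ext x
      simp only [Ch, mem_ofPred_eq, mem_iUnion, mem_inter_iff]
    rw [this]
    exact isOpen_iUnion fun j' => (hO.op _ _).inter (ih _ _)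

theorem Gauge.ch_tot (hO : Gauge O) (hp : StrictMono p) (x : X) :
    ∀ m i, ∃ j, Ch O p x m i j := by
  intro m
  induction m with
  | zero => exact fun i => ⟨i, le_rfl⟩
  | succ m ih =>
    intro i
    obtain ⟨b, hb⟩ := hO.tot (p i) x
    obtain ⟨j, hj⟩ := ih b
    exact ⟨j, b, hO.mono _ _ _ _ hb (hp.id_le b), hj⟩

theorem Gauge.der (hX : PM X) (hO : Gauge O) (hp : StrictMono p) :
    ∃ w : ℕ → ℕ, ∀ φ : ℕ → ℕ, (∀ᶠ n in atTop, w n ≤ φ n) → Gauge (Der O p φ) := by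
  obtain ⟨w, hw⟩ := hX.io (R := fun x i j => Ch O p x (i + 1) i j) (fun i j => hO.ch_open p _ _ _)
    fun x i => hO.ch_tot hp x _ _
  refine ⟨w, fun φ hφ => ⟨fun a b => ?_, ?_, ?_, fun a x => ?_⟩⟩
  · have : {x | Der O p φ a b x} = ⋃ i, ⋃ j, ⋃ _ : a ≤ i ∧ j ≤ φ i ∧ p j ≤ b,
        {x | Ch O p x (i + 1) i j} := by
      ext x
      simp only [Der, mem_ofPred_eq, mem_iUnion, exists_prop]
      exact ⟨fun ⟨i, j, h1, h2, h3, h4⟩ => ⟨i, j, ⟨h1, h2, h4⟩, h3⟩,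
        fun ⟨i, j, ⟨h1, h2, h4⟩, h3⟩ => ⟨i, j, h1, h2, h3, h4⟩⟩
    rw [this]
    exact isOpen_iUnion fun i => isOpen_iUnion fun j => isOpen_iUnion fun _ => hO.ch_open p _ _ _
  · rintro a b x ⟨i, j, h1, -, h3, h4⟩
    exact h1.trans ((hO.ch_le hp x _ _ _ h3).trans ((hp.id_le j).trans h4))
  · rintro a b b' x ⟨i, j, h1, h2, h3, h4⟩ hb
    exact ⟨i, j, h1, h2, h3, h4.trans hb⟩
  · obtain ⟨m, hm⟩ := eventually_atTop.1 hφ
    obtain ⟨i, j, h1, h2, h3⟩ := hw x (a + m)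
    exact ⟨p j, i, j, by omega, h2.trans (hm i (by omega)), h3, le_rfl⟩

theorem Gauge.pigeon (hO : Gauge O) (hp : StrictMono p) (x : X) (E : Set ℕ) :
    ∀ m i j, Ch O p x m i j → (E ∩ Icc i j).ncard < m →
      ∃ s s', i ≤ s ∧ s' ≤ j ∧ O (p s) (p s') x ∧ Miss s s' E := by
  intro m
  induction m with
  | zero => exact fun i j _ h => absurd h (Nat.not_lt_zero _)
  | succ m ih =>
    rintro i j ⟨j', h1, h2⟩ h3
    have h4 := hp.le_iff_le.1 (hO.le _ _ _ h1)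
    have h5 := hO.ch_le hp x _ _ _ h2
    by_cases h6 : Miss i j' E
    · exact ⟨i, j', le_rfl, h5, h1, h6⟩
    · simp only [Miss, not_forall, not_le] at h6
      obtain ⟨t, ht, h7, h8⟩ := h6
      have h9 : (E ∩ Icc j' j).ncard < (E ∩ Icc i j).ncard := by
        refine ncard_lt_ncard ((ssubset_iff_of_subset
          (inter_subset_inter_right _ (Icc_subset_Icc_left h4))).2
          ⟨t, ⟨ht, h7, h8.le.trans h5⟩, fun h => absurd h.2.1 (not_le.2 h8)⟩)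
          ((finite_Icc _ _).inter_of_right _)
      obtain ⟨s, s', h10, h11⟩ := ih j' j h2 (by omega)
      exact ⟨s, s', h4.trans h10, h11⟩

theorem Gauge.cover (hO : Gauge O) (hp : StrictMono p) {φ : ℕ → ℕ} {Z : Set ℕ}
    (hZ : Thin φ (idx p Z)) : Cover O (Der O p φ) Z := by
  obtain ⟨k, hk⟩ := hZ
  refine ⟨k, ?_⟩
  rintro a b x ha ⟨i, j, h1, h2, h3, h4⟩
  have h5 : (idx p Z ∩ Icc i j).ncard ≤ k :=
    (ncard_le_ncard (inter_subset_inter_right _ (Icc_subset_Icc_right h2))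
      ((finite_Icc _ _).inter_of_right _)).trans (hk i)
  obtain ⟨s, s', h6, h7, h8, h9⟩ := hO.pigeon hp x (idx p Z) _ _ _ h3 (by omega)
  refine ⟨p s, p s', h1.trans (h6.trans (hp.id_le s)), (hp.monotone h7).trans h4, h8,
    fun t ht hst => not_lt.1 fun hts => ?_⟩
  obtain ⟨n, h10, h11, h12⟩ := exists_idx hp hst s' hts
  exact absurd (h9 n ⟨t, ht, h12⟩ h10) (not_le.2 h11)

end

theorem bdd_countable {ι : Type} [Countable ι] (f : ι → ℕ → ℕ) :
    ∃ g : ℕ → ℕ, ∀ i, ∀ᶠ n in atTop, f i n ≤ g n := by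
  rcases isEmpty_or_nonempty ι with h | h
  · exact ⟨0, fun i => isEmptyElim i⟩
  obtain ⟨e, he⟩ := exists_surjective_nat ι
  refine ⟨fun n => hull (fun k => f (e k) n) n, fun i => ?_⟩
  obtain ⟨k, rfl⟩ := he i
  exact (eventually_ge_atTop k).mono fun n hn => le_hull (fun k => f (e k) n) hn

theorem exists_scale : ∃ (T : Type) (_ : LinearOrder T) (_ : WellFoundedLT T) (p : T → ℕ → ℕ),
    (∀ ξ, StrictMono (p ξ)) ∧ (∀ g : ℕ → ℕ, ∃ ξ, ∃ᶠ n in atTop, g n < p ξ n) ∧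
      ∀ (ξ : T) (f : List (Iio ξ) → ℕ → ℕ), ∃ g : ℕ → ℕ, ∀ l, ∀ᶠ n in atTop, f l n ≤ g n := by
  let S : Set Cardinal.{0} := {c | ∃ (ι : Type) (f : ι → ℕ → ℕ),
    (∀ g : ℕ → ℕ, ∃ i, ∃ᶠ n in atTop, g n < f i n) ∧ #ι = c}
  have hS : sInf S ∈ S := csInf_mem ⟨_, ℕ → ℕ, id, fun g =>
    ⟨fun n => g n + 1, Frequently.of_forall fun n => Nat.lt_succ_self _⟩, rfl⟩
  have hlt : ∀ (ι : Type) (f : ι → ℕ → ℕ), #ι < sInf S →
      ∃ g : ℕ → ℕ, ∀ i, ∀ᶠ n in atTop, f i n ≤ g n := by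
    intro ι f hι
    by_contra hc
    refine absurd (csInf_le' (s := S) ⟨ι, f, fun g => ?_, rfl⟩) (not_le.2 hι)
    by_contra h
    refine hc ⟨g, fun i => ?_⟩
    by_contra h'
    exact h ⟨i, (not_eventually.1 h').mono fun n hn => not_le.1 hn⟩
  obtain ⟨ι, f, hf, hι⟩ := hS
  have h0 : ℵ₀ < sInf S := by
    by_contra hc
    have : Countable ι := mk_le_aleph0_iff.1 (hι ▸ not_lt.1 hc)
    obtain ⟨g, hg⟩ := bdd_countable f
    obtain ⟨i, hi⟩ := hf g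
    obtain ⟨n, h1, h2⟩ := (hi.and_eventually (hg i)).exists
    omega
  obtain ⟨φ⟩ := Cardinal.eq.1 ((mk_ord_toType (sInf S)).trans hι.symm)
  refine ⟨(sInf S).ord.ToType, inferInstance, inferInstance, fun ξ n => hull (f (φ ξ)) n + n,
    fun ξ a b hab => ?_, fun g => ?_, fun ξ F => hlt _ F ?_⟩
  · have := hull_mono (f (φ ξ)) hab.le
    dsimp only
    omega
  · obtain ⟨i, hi⟩ := hf g
    refine ⟨φ.symm i, hi.mono fun n hn => ?_⟩
    have := le_hull (f i) (le_refl n)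
    simp only [Equiv.apply_symm_apply]
    omega
  · have h1 := mk_Iio_lt ξ (by simp)
    exact (mk_list_le_max _).trans_lt (max_lt h0 (by simpa using h1))

theorem exists_long (g : ℕ → ℕ) : ∃ h : ℕ → ℕ, ∀ p : ℕ → ℕ, (∃ᶠ n in atTop, h n < p n) →
    {j | g (p j) < p (j + 1)}.Infinite := by
  let G : ℕ → ℕ := fun n => hull g n + n
  have hG : Monotone G := fun a b hab => Nat.add_le_add (hull_mono g hab) hab
  have hG1 : ∀ k n, n ≤ G^[k] n := fun k n =>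
    Function.id_le_iterate_of_id_le (f := G) (fun n => Nat.le_add_left _ _) k n
  refine ⟨fun n => G^[n] n, fun p hp hf => ?_⟩
  obtain ⟨j0, hj0⟩ := hf.bddAbove
  have h1 : ∀ k, p (j0 + 1 + k) ≤ G^[k] (p (j0 + 1)) := by
    intro k
    induction k with
    | zero => exact le_rfl
    | succ k ih =>
      rw [Function.iterate_succ_apply']
      have h2 : ¬ g (p (j0 + 1 + k)) < p (j0 + 1 + k + 1) := fun h => by
        have := hj0 h
        omega
      have h3 := le_hull g (le_refl (p (j0 + 1 + k)))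
      have h4 := hG ih
      change p (j0 + 1 + k + 1) ≤ _
      simp only [G] at h4 ⊢
      omega
  obtain ⟨n, h2, h3⟩ := (hp.and_eventually (eventually_ge_atTop (j0 + 1 + p (j0 + 1)))).exists
  obtain ⟨k, rfl⟩ := Nat.exists_eq_add_of_le (le_trans (Nat.le_add_right _ _) h3)
  have h4 : G^[j0 + 1 + k] (j0 + 1 + k) = G^[k] (G^[j0 + 1] (j0 + 1 + k)) := by
    rw [← Function.iterate_add_apply, Nat.add_comm k]
  have h5 := hG.iterate k (show p (j0 + 1) ≤ G^[j0 + 1] (j0 + 1 + k) from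
    le_trans (by omega) (hG1 _ _))
  have h6 := h1 k
  dsimp only at h2
  omega

/-- Every gauge on a Menger space is missed by a groupwise dense ideal. -/
theorem engine {X : Type} [TopologicalSpace X] (hX : PM X) {O : ℕ → ℕ → X → Prop}
    (hO : Gauge O) : ∃ I : Set (Set ℕ), (∀ A ∈ I, ∀ B ⊆ A, B ∈ I) ∧
      (∀ A ∈ I, ∀ B ∈ I, A ∪ B ∈ I) ∧ (∀ A : Set ℕ, A.Finite → A ∈ I) ∧
      (∀ g : ℕ → ℕ, ∃ Z ∈ I, ∀ m, ∃ n, m ≤ n ∧ Icc n (g n) ⊆ Z) ∧
      ∀ Z ∈ I, ∀ x, ∃ a b, O a b x ∧ Miss a b Z := by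
  classical
  obtain ⟨T, _, _, p, hp, hu, hb⟩ := exists_scale
  choose bd hbd using hb
  have hw : ∀ (L : List ((ℕ → ℕ) × (ℕ → ℕ))) (ξ : T), ∃ w : ℕ → ℕ, Gauge (GaL O L) →
      ∀ φ : ℕ → ℕ, (∀ᶠ n in atTop, w n ≤ φ n) → Gauge (Der (GaL O L) (p ξ) φ) := by
    intro L ξ
    by_cases h : Gauge (GaL O L)
    · obtain ⟨w, hw⟩ := h.der hX (hp ξ)
      exact ⟨w, fun _ => hw⟩
    · exact ⟨0, fun h' => absurd h' h⟩
  choose w hw using hw
  let φ : T → ℕ → ℕ := wellFounded_lt.fix fun ξ ih =>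
    bd ξ fun l => w (l.map fun η => (p η.1, ih η.1 η.2)) ξ
  have hφ : ∀ ξ, φ ξ = bd ξ fun l => w (l.map fun η => (p η.1, φ η.1)) ξ := fun ξ =>
    wellFounded_lt.fix_eq _ ξ
  have key : ∀ s : Finset T, ∃ l : List T, (∀ η ∈ l, η ∈ s) ∧
      Gauge (GaL O (l.map fun η => (p η, φ η))) ∧ ∀ Z : T → Set ℕ,
        (∀ η, Thin (φ η) (idx (p η) (Z η))) →
          Cover O (GaL O (l.map fun η => (p η, φ η))) (⋃ η ∈ s, Z η) := by
    intro s
    induction s using Finset.induction_on_max with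
    | empty => exact ⟨[], by simp, hO, fun Z _ => by simpa [GaL] using Cover.refl O⟩
    | insert ξ s hs ih =>
      obtain ⟨l, h1, h2, h3⟩ := ih
      refine ⟨ξ :: l, fun η hη => ?_, ?_, fun Z hZ => ?_⟩
      · rcases List.mem_cons.1 hη with rfl | h
        · exact Finset.mem_insert_self _ _
        · exact Finset.mem_insert_of_mem (h1 η h)
      · lift l to List (Iio ξ) using fun η hη => hs η (h1 η hη)
        refine hw _ ξ h2 _ ?_
        dsimp only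
        rw [hφ ξ, List.map_map]
        exact hbd ξ (fun l => w (l.map fun η => (p η.1, φ η.1)) ξ) l
      · rw [Finset.set_biUnion_insert]
        exact (h3 Z hZ).trans (h2.cover (hp ξ) (hZ ξ))
  refine ⟨{A | ∃ (s : Finset T) (Z : T → Set ℕ), (∀ η, Thin (φ η) (idx (p η) (Z η))) ∧
    A ⊆ ⋃ η ∈ s, Z η}, ?_, ?_, ?_, ?_, ?_⟩
  · rintro A ⟨s, Z, h1, h2⟩ B hB
    exact ⟨s, Z, h1, hB.trans h2⟩
  · rintro A ⟨s, Z, h1, h2⟩ B ⟨s', Z', h1', h2'⟩
    refine ⟨s ∪ s', fun η => Z η ∪ Z' η, fun η => (thin_union (h1 η) (h1' η)).mono ?_, ?_⟩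
    · rintro j ⟨t, ht | ht, h⟩
      · exact Or.inl ⟨t, ht, h⟩
      · exact Or.inr ⟨t, ht, h⟩
    · rintro t (ht | ht)
      · obtain ⟨η, h3, h4⟩ := mem_iUnion₂.1 (h2 ht)
        exact mem_iUnion₂.2 ⟨η, Finset.mem_union_left _ h3, Or.inl h4⟩
      · obtain ⟨η, h3, h4⟩ := mem_iUnion₂.1 (h2' ht)
        exact mem_iUnion₂.2 ⟨η, Finset.mem_union_right _ h3, Or.inr h4⟩
  · intro A hA
    obtain ⟨ξ, -⟩ := hu 0
    obtain ⟨b, hb⟩ := hA.bddAbove
    refine ⟨{ξ}, fun _ => A, fun η => thin_finite _ ((finite_Iic b).subset ?_), by simp⟩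
    rintro j ⟨t, ht, h, -⟩
    exact ((hp η).id_le j).trans (h.trans (hb ht))
  · intro g
    obtain ⟨h, hh⟩ := exists_long g
    obtain ⟨ξ, hξ⟩ := hu h
    obtain ⟨E, hE1, hE2, hE3⟩ := exists_thin (φ ξ) (hh _ hξ)
    refine ⟨⋃ j ∈ E, Ico (p ξ j) (p ξ (j + 1)), ⟨{ξ}, fun η => if η = ξ then
      ⋃ j ∈ E, Ico (p ξ j) (p ξ (j + 1)) else ∅, fun η => ?_, by simp⟩, fun m => ?_⟩
    · by_cases hη : η = ξ
      · subst hη
        refine hE3.mono ?_
        rintro j ⟨t, ht, h1, h2⟩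
        simp only [if_true] at ht
        obtain ⟨j', h3, h4, h5⟩ := mem_iUnion₂.1 ht
        have h6 := (hp η).lt_iff_lt.1 (h1.trans_lt h5)
        have h7 := (hp η).lt_iff_lt.1 (h4.trans_lt h2)
        rwa [show j = j' by omega]
      · refine thin_finite _ (finite_empty.subset ?_)
        rintro j ⟨t, ht, -⟩
        simp only [if_neg hη] at ht
        exact ht
    · obtain ⟨j, hj, hmj⟩ := hE2.exists_gt m
      exact ⟨p ξ j, hmj.le.trans ((hp ξ).id_le j), fun t ht =>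
        mem_iUnion₂.2 ⟨j, hj, ht.1, ht.2.trans_lt (hE1 hj)⟩⟩
  · rintro A ⟨s, Z, h1, h2⟩ x
    obtain ⟨l, -, h3, h4⟩ := key s
    obtain ⟨k, hk⟩ := h4 Z h1
    obtain ⟨b, hb⟩ := h3.tot k x
    obtain ⟨a', b', -, -, h5, h6⟩ := hk k b x le_rfl hb
    exact ⟨a', b', h5, fun t ht => h6 t (h2 ht)⟩

end Pool.Agent.B8a914
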