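import Pool.Agent.Work.MP_b8a914_gt.C.D
import Pool.Agent.Work.MP_b8a914_gt.G.A

set_option autoImplicit false

open Cardinal Set Filter Topology

namespace Pool.Agent.B8a914

theorem gauge_of_usc {X : Type} [TopologicalSpace X] {Ψ : X → ℕ → ℕ} (h : USC Ψ) :
    Gauge fun a b x => a < b ∧ ∀ n ≤ a, Ψ x n < b := by
  refine ⟨fun a b => ?_, fun a b x h => h.1.le, fun a b b' x h hb =>
    ⟨h.1.trans_le hb, fun n hn => (h.2 n hn).trans_le hb⟩, fun a x =>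
    ⟨hull (Ψ x) a + a + 1, by omega, fun n hn => ?_⟩⟩
  · cases b with
    | zero => simp
    | succ b =>
      have : {x | a < b + 1 ∧ ∀ n ≤ a, Ψ x n < b + 1} =
          {_x | a < b + 1} ∩ ⋂ n ∈ Iic a, {x | Ψ x n ≤ b} := by
        ext x
        simp
      rw [this]
      exact isOpen_const.inter ((finite_Iic a).isOpen_biInter fun n _ => h n b)
  · have := le_hull (Ψ x) hn
    omega

theorem gf_le_add : filterGroupwiseDensity ≤ addMenger := by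
  obtain ⟨Y, hY, hn, hadd⟩ := exists_add
  have h1 : ¬ PM (⋃₀ Y : Set ℝ) := fun h => hn h.isMenger
  simp only [PM, not_forall, not_exists, not_le] at h1
  obtain ⟨Ψ, hΨ, hg⟩ := h1
  choose I h1 h2 h3 h4 h5 using fun y : Y => engine (hY y y.2).pm
    (gauge_of_usc (Ψ := fun x : y.1 => Ψ ⟨x.1, subset_sUnion_of_mem y.2 x.2⟩)
      (hΨ.comp (continuous_subtype_val.subtype_mk _)))
  rw [← hadd]
  refine le_trans (b := #(range I)) (csInf_le' ⟨range I, ?_, fun Z hZ => ?_, rfl⟩) mk_range_le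
  · rintro _ ⟨y, rfl⟩
    refine ⟨fun A hA B hB => h1 y _ (h2 y A hA _ (h3 y _ hB)) B
      (fun t ht => (em (t ∈ A)).imp id fun h => ⟨ht, h⟩), h2 y,
      fun p hp => ?_⟩
    obtain ⟨Z, hZ, hm⟩ := h4 y fun n => p (n + 1)
    refine ⟨{j | Ico (p j) (p (j + 1)) ⊆ Z}, infinite_of_forall_exists_gt fun m => ?_,
      h1 y Z hZ _ (iUnion₂_subset fun j hj => hj)⟩
    obtain ⟨n, h6, h7⟩ := hm (m + 1)
    exact ⟨n, fun t ht => h7 ⟨(hp.id_le n).trans ht.1, ht.2.le⟩, h6⟩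
  · obtain ⟨⟨x, y, hy, hx⟩, hxg⟩ := hg (nxt Z)
    refine ⟨I ⟨y, hy⟩, mem_range_self _, fun hZI => ?_⟩
    obtain ⟨a, b, ⟨-, h6⟩, h7⟩ := h5 ⟨y, hy⟩ Z hZI ⟨x, hx⟩
    obtain ⟨h8, h9⟩ := nxt_spec hZ a
    exact absurd ((h6 a le_rfl).trans_le (h7 _ h8 h9)) (not_lt.2 (hxg a).le)

theorem nxt_mono {A : Set ℕ} (hA : A.Infinite) : Monotone (nxt A) := fun _ b h =>
  nxt_le (nxt_spec hA b).1 (h.trans (nxt_spec hA b).2)

theorem not_FD_of_D2 (h : D2) : ¬ FilterDichotomy := by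
  obtain ⟨Y, hY, hd⟩ := h
  intro hFD
  obtain ⟨I, h1, h2, h3, h4, h5⟩ := engine hY.pm
    (gauge_of_usc (usc_of_continuous (continuous_subtype_val (p := (· ∈ Y)))))
  let F : Filter ℕ :=
    { sets := {s | sᶜ ∈ I}
      univ_sets := h3 _ (by simp)
      sets_of_superset := fun hs hst => h1 _ hs _ (compl_subset_compl.2 hst)
      inter_sets := fun hs ht => h1 _ (h2 _ hs _ ht) _ (compl_inter _ _).subset }
  have hF : ∀ s, s ∈ F ↔ sᶜ ∈ I := fun _ => Iff.rfl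
  have h6 : ∀ s ∈ F, ∀ y ∈ Y, ∃ a b, a < b ∧ (∀ n ≤ a, y n < b) ∧ Ico a b ⊆ s := by
    intro s hs y hy
    obtain ⟨a, b, ⟨h7, h8⟩, h9⟩ := h5 _ hs ⟨y, hy⟩
    exact ⟨a, b, h7, h8, fun t ht => by_contra fun h => absurd (h9 t h ht.1) (not_le.2 ht.2)⟩
  have hne : F.NeBot := forall_mem_nonempty_iff_neBot.1 fun s hs => by
    obtain ⟨y, hy, -⟩ := hd 0
    obtain ⟨a, b, h7, -, h8⟩ := h6 s hs y hy
    exact ⟨a, h8 ⟨le_rfl, h7⟩⟩
  obtain ⟨f, hf, hFf⟩ := hFD F hne fun s hs => h3 _ hs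
  have hfin : ∀ D : Set ℕ, D.Finite → (f ⁻¹' D).Finite := fun D hD =>
    hD.preimage' fun d _ => hf d
  choose hi hhi using fun d => (hf d).bddAbove
  have h7 : ∀ n, ∃ t, ∀ t', f t' = f t → n ≤ t' := by
    intro n
    obtain ⟨t, ht⟩ := (hfin _ ((finite_Iio n).image f)).infinite_compl.nonempty
    exact ⟨t, fun t' h => not_lt.1 fun h' => ht ⟨t', h', h⟩⟩
  choose c hc using h7
  obtain ⟨Z, hZ, hm⟩ := h4 fun n => hi (f (c n))
  let D : Set ℕ := {d | f ⁻¹' {d} ⊆ Z}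
  have hD : (f ⁻¹' D).Infinite := infinite_of_forall_exists_gt fun m => by
    obtain ⟨n, h8, h9⟩ := hm (m + 1)
    exact ⟨c n, fun t ht => h9 ⟨hc n t ht, hhi _ ht⟩, h8.trans (hc n _ rfl)⟩
  have hDF : Dᶜ ∈ map f F := h1 Z hZ _ fun t ht => (not_not.1 ht : f t ∈ D) rfl
  rcases hFf with hFf | ⟨U, hU⟩
  · rw [hFf, mem_cofinite, compl_compl] at hDF
    exact hD (hfin D hDF)
  · let lo : ℕ → ℕ := fun d => sInf (f ⁻¹' {d})
    let H : ℕ → ℕ := fun d => nxt (f ⁻¹' D) (hi d)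
    have h8 : ∀ y ∈ Y, {d | y (lo d) < H d} ∈ map f F := by
      intro y hy
      rw [hU] at hDF ⊢
      by_contra hcon
      have h9 : Dᶜ ∩ {d | y (lo d) < H d}ᶜ ∈ map f F := by
        rw [hU]
        exact inter_mem hDF (Ultrafilter.compl_mem_iff_notMem.2 hcon)
      obtain ⟨a, b, h10, h11, h12⟩ := h6 _ h9 y hy
      refine (h12 ⟨le_rfl, h10⟩).2 ((h11 _ (Nat.sInf_le (rfl : f a = f a))).trans_le ?_)
      refine le_trans (not_lt.1 fun h13 => ?_) (nxt_mono hD (hhi (f a) (rfl : f a = f a)))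
      exact (h12 ⟨(nxt_spec hD a).2, h13⟩).1 (nxt_spec hD a).1
    obtain ⟨y₁, hy₁, y₂, hy₂, hy⟩ := hd fun n => H (f n)
    obtain ⟨t, ht₁, ht₂⟩ := hne.nonempty_of_mem (mem_map.1 (inter_mem (h8 y₁ hy₁) (h8 y₂ hy₂)))
    have h9 : f (lo (f t)) = f t := Nat.sInf_mem (s := f ⁻¹' {f t}) ⟨t, rfl⟩
    have h10 := hy (lo (f t))
    rw [h9] at h10
    exact h10.elim (not_le.2 ht₁) (not_le.2 ht₂)

theorem not_FD_of_fan {X : Type} [TopologicalSpace X] (hX : IsMenger X) (hF : FanInCp X) :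
    ¬ FilterDichotomy :=
  not_FD_of_D2 (by_contra fun h => (SB_of_not_D2 h).no_fan X hX hF)

end Pool.Agent.B8a914
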